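import Pool.Agent.Helper79.GS.St3

set_option autoImplicit false

namespace Pool.Agent.Helper5.GS

open Pool.Agent.Helper79.GS

/-- four walks around a closed walk -/
private def R4 {n : ℕ} (E : Fin n → Fin n → Prop) (q : ℕ)
    (t : (Fin n ⊕ Fin n) × (Fin n ⊕ Fin n) × (Fin n ⊕ Fin n) × (Fin n ⊕ Fin n))
    (z : Fin n → Fin n → ℤ) : Prop :=
  ∃ z1 z2 z3 z4, Wk E q t.1 t.2.1 z1 ∧ Wk E q t.2.1 t.2.2.1 z2 ∧ Wk E q t.2.2.1 t.2.2.2 z3 ∧
    Wk E q t.2.2.2 t.1 z4 ∧ z = z1 + z2 + z3 + z4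

private theorem uniq {n : ℕ} {E : Fin n → Fin n → Prop} {q : ℕ} (hWK1 : StWK1) (hN : NoCyc E q)
    {a b : Fin n ⊕ Fin n} {z z' : Fin n → Fin n → ℤ} (h : Wk E q a b z) (h' : Wk E q a b z') : z = z' := by
  obtain ⟨hc, hr, -⟩ := hWK1 n E
  have h1 := hc q q a b a z (-z') h (hr q a b z' h')
  rw [← two_mul] at h1
  have h2 := hN a _ h1
  exact eq_of_sub_eq_zero (by rw [sub_eq_add_neg]; exact h2)

theorem hCNT (hWK1 : StWK1) : StCNT := by
  intro n E q hN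
  have hex : ∀ z, (∃ a, Wk E (4 * q) a a z) → ∃ t, R4 E q t z := by
    rintro z ⟨a, ha⟩
    obtain ⟨-, -, hs, -⟩ := hWK1 n E
    have e : 4 * q = q + (q + (q + q)) := by ring
    rw [e] at ha
    obtain ⟨b, z1, y1, h1, h1', e1⟩ := hs _ _ _ _ _ ha
    obtain ⟨c, z2, y2, h2, h2', e2⟩ := hs _ _ _ _ _ h1'
    obtain ⟨d, z3, z4, h3, h4, e3⟩ := hs _ _ _ _ _ h2'
    refine ⟨(a, b, c, d), z1, z2, z3, z4, h1, h2, h3, h4, ?_⟩
    rw [e1, e2, e3]
    simp only [add_assoc]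
  have hun : ∀ t z z', R4 E q t z → R4 E q t z' → z = z' := by
    rintro t z z' ⟨z1, z2, z3, z4, h1, h2, h3, h4, rfl⟩ ⟨z1', z2', z3', z4', h1', h2', h3', h4', rfl⟩
    rw [uniq hWK1 hN h1 h1', uniq hWK1 hN h2 h2', uniq hWK1 hN h3 h3', uniq hWK1 hN h4 h4']
  classical
  let g : (Fin n ⊕ Fin n) × (Fin n ⊕ Fin n) × (Fin n ⊕ Fin n) × (Fin n ⊕ Fin n) → (Fin n → Fin n → ℤ) :=
    fun t => if h : ∃ z, R4 E q t z then h.choose else 0
  have hsub : ({z | ∃ a, Wk E (4 * q) a a z} : Set (Fin n → Fin n → ℤ)) ⊆ Set.range g := by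
    intro z hz
    obtain ⟨t, ht⟩ := hex z hz
    refine ⟨t, ?_⟩
    have h : ∃ z, R4 E q t z := ⟨z, ht⟩
    show (if h : ∃ z, R4 E q t z then h.choose else 0) = z
    rw [dif_pos h]
    exact hun t _ _ h.choose_spec ht
  have hfin : (Set.range g).Finite := Set.finite_range g
  refine ⟨hfin.subset hsub, (Set.ncard_le_ncard hsub hfin).trans ?_⟩
  rw [← Set.image_univ]
  refine (Set.ncard_image_le (Set.toFinite _)).trans ?_
  rw [Set.ncard_univ]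
  simp only [Nat.card_eq_fintype_card, Fintype.card_prod, Fintype.card_sum, Fintype.card_fin]
  apply le_of_eq
  ring

end Pool.Agent.Helper5.GS
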